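import Pool.Agent.H29.ET.Defs

/-! # Crew ET, part INST -/

open Finset

namespace ETFar

theorem cellOf_comm (N : ℕ) (v w : Fin 3 × ZMod N) : cellOf N v w = cellOf N w v := by
  obtain ⟨a, x⟩ := v
  obtain ⟨b, y⟩ := w
  fin_cases a <;> fin_cases b <;> simp [cellOf]

theorem cellOf_self (N : ℕ) (v : Fin 3 × ZMod N) : cellOf N v v = none := by
  obtain ⟨a, x⟩ := v
  fin_cases a <;> simp [cellOf]

theorem loc_comm (N n : ℕ) (h : 3 * N ≤ n) [NeZero N] (i j : Fin n) :
    loc N n h (i, j) = loc N n h (j, i) := by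
  unfold loc
  simp only
  cases h1 : unvtx N n h i <;> cases h2 : unvtx N n h j <;> simp [cellOf_comm]

theorem loc_self (N n : ℕ) (h : 3 * N ≤ n) [NeZero N] (i : Fin n) :
    loc N n h (i, i) = none := by
  unfold loc
  simp only
  cases h1 : unvtx N n h i <;> simp [cellOf_self]

theorem loc_vtx (N n : ℕ) (h : 3 * N ≤ n) [NeZero N] (v w : Fin 3 × ZMod N) :
    loc N n h (vtx N n h v, vtx N n h w) = cellOf N v w := by
  unfold loc
  simp only
  rw [(unvtx_eq N n h _ v).2 rfl, (unvtx_eq N n h _ w).2 rfl]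
  rfl

theorem loc_some (N n : ℕ) (h : 3 * N ≤ n) [NeZero N] (i j : Fin n)
    (c : Fin 3 × ZMod N × ZMod N) (hc : loc N n h (i, j) = some c) :
    ∃ v w, unvtx N n h i = some v ∧ unvtx N n h j = some w ∧ cellOf N v w = some c := by
  unfold loc at hc
  simp only at hc
  cases h1 : unvtx N n h i with
  | none => rw [h1] at hc; simp at hc
  | some v =>
    cases h2 : unvtx N n h j with
    | none => rw [h1, h2] at hc; simp at hc
    | some w =>
      rw [h1, h2] at hc
      exact ⟨v, w, rfl, rfl, hc⟩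

theorem inst_of_loc (N n L : ℕ) (h : 3 * N ≤ n) [NeZero N]
    (u : Fin 3 × ZMod N × ZMod N → ZMod (2 * L)) (ij : Fin n × Fin n)
    (c : Fin 3 × ZMod N × ZMod N) (hc : loc N n h ij = some c) :
    inst N n L h u ij = (true, wval N L c (u c)) := by
  unfold inst
  rw [hc]

theorem loc_of_inst (N n L : ℕ) (h : 3 * N ≤ n) [NeZero N]
    (u : Fin 3 × ZMod N × ZMod N → ZMod (2 * L)) (ij : Fin n × Fin n)
    (hi : (inst N n L h u ij).1 = true) : ∃ c, loc N n h ij = some c := by
  unfold inst at hi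
  cases hc : loc N n h ij with
  | none => rw [hc] at hi; simp at hi
  | some c => exact ⟨c, rfl⟩

theorem wval_cast (N L : ℕ) [NeZero L] (c : Fin 3 × ZMod N × ZMod N) (g : ZMod (2 * L)) :
    ((wval N L c g : ℤ) : ZMod (2 * L)) = g := by
  have : NeZero (2 * L) := ⟨by have := NeZero.ne L; omega⟩
  unfold wval
  split_ifs with h
  · push_cast
    rw [ZMod.natCast_zmod_val]
    ring
  · push_cast
    rw [ZMod.natCast_zmod_val]

theorem wval_abs (N L : ℕ) [NeZero L] (c : Fin 3 × ZMod N × ZMod N) (g : ZMod (2 * L)) :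
    |wval N L c g| ≤ 3 * (L : ℤ) := by
  have : NeZero (2 * L) := ⟨by have := NeZero.ne L; omega⟩
  unfold wval
  split_ifs with h
  · have h1 := ZMod.val_lt (-g - (L : ZMod (2 * L)))
    rw [abs_neg, abs_of_nonneg (by positivity)]
    omega
  · have h1 := ZMod.val_lt g
    rw [abs_of_nonneg (by positivity)]
    omega

theorem inst_valid (N n L : ℕ) (h : 3 * N ≤ n) [NeZero N] [NeZero L] (hL : 3 * L ≤ n ^ 300)
    (u : Fin 3 × ZMod N × ZMod N → ZMod (2 * L)) : Valid (inst N n L h u) := by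
  refine ⟨fun i j => ?_, fun i => ?_, fun i j => ?_⟩
  · unfold inst
    rw [loc_comm]
  · unfold inst
    rw [loc_self]
  · unfold inst
    cases hc : loc N n h (i, j) with
    | none => simp
    | some c =>
      simp only
      refine (wval_abs N L c (u c)).trans ?_
      exact_mod_cast hL

theorem inst_yes (N n L : ℕ) (h : 3 * N ≤ n) [NeZero N] [NeZero L]
    (u : Fin 3 × ZMod N × ZMod N → ZMod (2 * L))
    (hu : ∃ i j k, Zero (inst N n L h u) i j k) :
    ∃ x y z : ZMod N, u (0, x, y) + u (1, y, z) + u (2, x, z) = 0 := by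
  obtain ⟨i, j, k, -, -, -, h1, h2, h3, hs⟩ := hu
  obtain ⟨c1, hc1⟩ := loc_of_inst N n L h u _ h1
  obtain ⟨c2, hc2⟩ := loc_of_inst N n L h u _ h2
  obtain ⟨c3, hc3⟩ := loc_of_inst N n L h u _ h3
  rw [inst_of_loc N n L h u _ c1 hc1, inst_of_loc N n L h u _ c2 hc2,
    inst_of_loc N n L h u _ c3 hc3] at hs
  simp only at hs
  have hs' : u c1 + u c2 + u c3 = 0 := by
    have := congrArg (fun t : ℤ => (t : ZMod (2 * L))) hs
    simp only [Int.cast_add, Int.cast_zero, wval_cast] at this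
    exact this
  obtain ⟨v, w, hv, hw, e1⟩ := loc_some N n h i j c1 hc1
  obtain ⟨w', t, hw', ht, e2⟩ := loc_some N n h j k c2 hc2
  obtain ⟨v', t', hv', ht', e3⟩ := loc_some N n h i k c3 hc3
  rw [hw] at hw'
  rw [hv] at hv'
  rw [ht] at ht'
  obtain rfl := Option.some.inj hw'
  obtain rfl := Option.some.inj hv'
  obtain rfl := Option.some.inj ht'
  obtain ⟨a, x⟩ := v
  obtain ⟨b, y⟩ := w
  obtain ⟨d, z⟩ := t
  clear hv hw ht hv' hw' ht' hc1 hc2 hc3 h1 h2 h3 hs
  fin_cases a <;> fin_cases b <;> simp [cellOf] at e1 <;> fin_cases d <;>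
    simp [cellOf] at e2 e3 <;> subst e1 <;> subst e2 <;> subst e3
  · exact ⟨x, y, z, hs'⟩
  · exact ⟨x, z, y, by rw [← hs']; ring⟩
  · exact ⟨y, x, z, by rw [← hs']; ring⟩
  · exact ⟨z, x, y, by rw [← hs']; ring⟩
  · exact ⟨y, z, x, by rw [← hs']; ring⟩
  · exact ⟨z, y, x, by rw [← hs']; ring⟩

theorem inst_zero (N n L : ℕ) (h : 3 * N ≤ n) [NeZero N] [NeZero L]
    (u : Fin 3 × ZMod N × ZMod N → ZMod (2 * L)) (x y z : ZMod N)
    (hs : u (0, x, y) + u (1, y, z) + u (2, x, z) = 0)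
    (h1 : L ≤ (u (0, x, y)).val + (u (1, y, z)).val)
    (h2 : (u (0, x, y)).val + (u (1, y, z)).val < 3 * L) :
    Zero (inst N n L h u) (vtx N n h (0, x)) (vtx N n h (1, y)) (vtx N n h (2, z)) := by
  have : NeZero (2 * L) := ⟨by have := NeZero.ne L; omega⟩
  have hne : ∀ (a b : Fin 3) (x y : ZMod N), a ≠ b → vtx N n h (a, x) ≠ vtx N n h (b, y) := by
    intro a b x y hab he
    have := vtx_injective N n h he
    exact hab (congrArg Prod.fst this)
  have e1 : inst N n L h u (vtx N n h (0, x), vtx N n h (1, y)) =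
      (true, wval N L (0, x, y) (u (0, x, y))) := by
    apply inst_of_loc
    rw [loc_vtx]
    simp [cellOf]
  have e2 : inst N n L h u (vtx N n h (1, y), vtx N n h (2, z)) =
      (true, wval N L (1, y, z) (u (1, y, z))) := by
    apply inst_of_loc
    rw [loc_vtx]
    simp [cellOf]
  have e3 : inst N n L h u (vtx N n h (0, x), vtx N n h (2, z)) =
      (true, wval N L (2, x, z) (u (2, x, z))) := by
    apply inst_of_loc
    rw [loc_vtx]
    simp [cellOf]
  refine ⟨hne _ _ _ _ (by decide), hne _ _ _ _ (by decide), hne _ _ _ _ (by decide), ?_, ?_, ?_,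
    ?_⟩
  · rw [e1]
  · rw [e2]
  · rw [e3]
  · rw [e1, e2, e3]
    unfold wval
    simp only [Fin.reduceEq, if_false, if_true]
    have hg : -(u (2, x, z)) - (L : ZMod (2 * L)) =
        (((u (0, x, y)).val + (u (1, y, z)).val - L : ℕ) : ZMod (2 * L)) := by
      rw [Nat.cast_sub h1]
      push_cast
      rw [ZMod.natCast_zmod_val, ZMod.natCast_zmod_val]
      linear_combination -hs
    rw [hg, ZMod.val_natCast, Nat.mod_eq_of_lt (by omega)]
    omega

end ETFar
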