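import Pool.Agent.H29.ET.Defs

/-! # Crew ET, part LNUM -/

open Finset

namespace ETFar

theorem rpow_two_thirds_cube {x : ℝ} (hx : 0 ≤ x) : (x ^ (3 : ℕ)) ^ (2 / 3 : ℝ) = x ^ (2 : ℕ) := by
  rw [← Real.rpow_natCast, ← Real.rpow_natCast, ← Real.rpow_mul hx]
  norm_num

theorem lower_num : ∃ c : ℝ, 0 < c ∧ ∀ n m q : ℕ, 1 ≤ m → (m : ℝ) ≤ c * (n : ℝ) ^ 2 →
    (∀ H r : ℕ, 1 ≤ H → 1 ≤ r → H ≤ n / 3 → r ≤ n / 3 → 4 * m ≤ H * r →
      ((n / 3 : ℕ) : ℝ) ^ 3 / 10 ≤ H * r * (q : ℝ) ^ (3 / 2 : ℝ) ∧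
      ((n / 3 : ℕ) : ℝ) ^ 3 / 10 ≤ H * ((n / 3 : ℕ) : ℝ) * √r * q) →
    c * bound n m ≤ q := by
  refine ⟨1 / 10000, by norm_num, fun n m q hm hmn hall => ?_⟩
  have hm1 : (1 : ℝ) ≤ m := by exact_mod_cast hm
  have hn100 : 100 ≤ n := by
    have h1 : (10000 : ℝ) ≤ (n : ℝ) ^ 2 := by linarith
    have h2 : (100 : ℝ) ≤ n := by
      by_contra hlt
      push Not at hlt
      have : (n : ℝ) ^ 2 < 100 ^ 2 := pow_lt_pow_left₀ hlt (Nat.cast_nonneg _) (by norm_num)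
      linarith
    exact_mod_cast h2
  obtain ⟨N, hNdef⟩ : ∃ N, N = n / 3 := ⟨_, rfl⟩
  rw [← hNdef] at hall
  have hN4 : n ≤ 4 * N := by omega
  have hNR : (n : ℝ) ≤ 4 * N := by exact_mod_cast hN4
  have hN1 : 1 ≤ N := by omega
  have hNpos : (0 : ℝ) < N := by exact_mod_cast hN1
  have hn0 : (0 : ℝ) < n := by exact_mod_cast (by omega : 0 < n)
  have hm0 : (0 : ℝ) < m := by linarith
  have hq0 : (0 : ℝ) ≤ q := Nat.cast_nonneg _
  have hn2 : (n : ℝ) ^ 2 ≤ 16 * (N : ℝ) ^ 2 := by nlinarith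
  have hmN : 4 * m ≤ N * N := by
    have h1 : (m : ℝ) ≤ 1 / 10000 * (16 * (N : ℝ) ^ 2) := by linarith
    have h2 : (4 * m : ℝ) ≤ N * N := by nlinarith
    exact_mod_cast h2
  -- the first bound
  have key1 : ∀ H r : ℕ, (H * r : ℕ) ≤ 8 * m → (N : ℝ) ^ 3 / 10 ≤ H * r * (q : ℝ) ^ (3 / 2 : ℝ) →
      (n : ℝ) ^ 2 / (m : ℝ) ^ (2 / 3 : ℝ) ≤ 10000 * q := by
    intro H r hHr h1
    have hHr' : (H : ℝ) * r ≤ 8 * m := by exact_mod_cast hHr
    have hqr : 0 ≤ (q : ℝ) ^ (3 / 2 : ℝ) := Real.rpow_nonneg hq0 _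
    have h2 : (N : ℝ) ^ 3 ≤ (10 : ℝ) ^ 3 * m * (q : ℝ) ^ (3 / 2 : ℝ) := by
      have h3 : (H : ℝ) * r * (q : ℝ) ^ (3 / 2 : ℝ) ≤ 8 * m * (q : ℝ) ^ (3 / 2 : ℝ) :=
        mul_le_mul_of_nonneg_right hHr' hqr
      have h4 : 0 ≤ (m : ℝ) * (q : ℝ) ^ (3 / 2 : ℝ) := by positivity
      nlinarith
    have h3 := Real.rpow_le_rpow (by positivity) h2 (by norm_num : (0 : ℝ) ≤ 2 / 3)
    rw [rpow_two_thirds_cube hNpos.le, Real.mul_rpow (by positivity) hqr,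
      Real.mul_rpow (by positivity) hm0.le, rpow_two_thirds_cube (by norm_num),
      ← Real.rpow_mul hq0] at h3
    norm_num at h3
    have hmr : 0 < (m : ℝ) ^ (2 / 3 : ℝ) := Real.rpow_pos_of_pos hm0 _
    rw [div_le_iff₀ hmr]
    have h4 : 0 ≤ (m : ℝ) ^ (2 / 3 : ℝ) * q := by positivity
    nlinarith
  suffices hb : bound n m ≤ 10000 * q by linarith
  unfold bound
  by_cases hcase : 4 * m ≤ N
  · obtain ⟨h1, h2⟩ := hall 1 (4 * m) le_rfl (by omega) hN1 hcase (by omega)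
    refine max_le (key1 1 (4 * m) (by omega) h1) (min_le_of_left_le ?_)
    have hs : √((4 * m : ℕ) : ℝ) = 2 * √(m : ℝ) := by
      push_cast
      rw [Real.sqrt_mul (by norm_num), show (4 : ℝ) = 2 ^ 2 by norm_num, Real.sqrt_sq (by norm_num)]
    rw [hs] at h2
    have hsm : 0 < √(m : ℝ) := Real.sqrt_pos.2 hm0
    rw [div_le_iff₀ hsm]
    have h3 : (N : ℝ) ^ 2 ≤ 20 * (√(m : ℝ) * q) := by
      have h4 : (N : ℝ) * (N : ℝ) ^ 2 ≤ N * (20 * (√(m : ℝ) * q)) := by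
        push_cast at h2
        nlinarith
      exact le_of_mul_le_mul_left h4 hNpos
    have h4 : 0 ≤ √(m : ℝ) * q := by positivity
    nlinarith
  · push Not at hcase
    obtain ⟨H, hH⟩ : ∃ H, H = (4 * m + N - 1) / N := ⟨_, rfl⟩
    have hH1 : H * N ≤ 4 * m + N - 1 := by rw [hH]; exact Nat.div_mul_le_self _ _
    have hH2 : 4 * m + N - 1 < H * N + N := by
      rw [hH]
      exact Nat.lt_div_mul_add hN1
    have hH3 : 4 * m ≤ H * N := by omega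
    have hH4 : 1 ≤ H := by
      rcases Nat.eq_zero_or_pos H with h | h
      · rw [h] at hH3; omega
      · exact h
    have hH5 : H ≤ N := by
      by_contra hlt
      push Not at hlt
      have : (N + 1) * N ≤ H * N := Nat.mul_le_mul_right _ hlt
      have h2 : (N + 1) * N = N * N + N := by ring
      omega
    obtain ⟨h1, h2⟩ := hall H N hH4 hN1 hH5 le_rfl hH3
    have hHN : H * N ≤ 8 * m := by omega
    refine max_le (key1 H N hHN h1) (min_le_of_right_le ?_)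
    have hHN' : (H : ℝ) * N ≤ 8 * m := by exact_mod_cast hHN
    have hsN : 0 < √(N : ℝ) := Real.sqrt_pos.2 hNpos
    have hsq : √(N : ℝ) * √(N : ℝ) = N := Real.mul_self_sqrt hNpos.le
    have h3 : (N : ℝ) ^ 2 * √(N : ℝ) ≤ 80 * (m * q) := by
      have h4 : √(N : ℝ) * ((N : ℝ) ^ 2 * √(N : ℝ)) ≤ √(N : ℝ) * (80 * (m * q)) := by
        have h5 : √(N : ℝ) * ((N : ℝ) ^ 2 * √(N : ℝ)) = (N : ℝ) ^ 3 := by
          calc √(N : ℝ) * ((N : ℝ) ^ 2 * √(N : ℝ)) = (N : ℝ) ^ 2 * (√(N : ℝ) * √(N : ℝ)) := by ring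
            _ = _ := by rw [hsq]; ring
        rw [h5]
        have h6 : (H : ℝ) * N * (√(N : ℝ) * q) ≤ 8 * m * (√(N : ℝ) * q) :=
          mul_le_mul_of_nonneg_right hHN' (by positivity)
        nlinarith
      exact le_of_mul_le_mul_left h4 hsN
    have hsn : √(n : ℝ) ≤ 2 * √(N : ℝ) := by
      have h4 : √(n : ℝ) ≤ √(4 * (N : ℝ)) := Real.sqrt_le_sqrt hNR
      rwa [Real.sqrt_mul (by norm_num), show (4 : ℝ) = 2 ^ 2 by norm_num,
        Real.sqrt_sq (by norm_num)] at h4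
    rw [div_le_iff₀ hm0]
    have h4 : (n : ℝ) ^ 2 * √(n : ℝ) ≤ (16 * (N : ℝ) ^ 2) * (2 * √(N : ℝ)) :=
      mul_le_mul hn2 hsn (Real.sqrt_nonneg _) (by positivity)
    have h5 : 0 ≤ (m : ℝ) * q := by positivity
    nlinarith

end ETFar
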